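import Pool.Agent.W522.N.H2

/-!
# The weight-monodromy conjecture for `H^3_HK` in all dimensions

Let `X` be a projective strictly semistable scheme of relative dimension `n ≥ 3` over the ring of
integers of `K`, `Y` its special fibre, over the field with `q` elements (over which all strata are
defined), `Y^(m)` the disjoint union of the intersections of `m` components. For Hyodo-Kato
cohomology, `E = K_0 = W(k)[1/p]`, `V a w` is the crystalline cohomology `H^(w-a)(Y^(a+1)/W)[1/p]`,
Frobenius is the linear power of the crystalline Frobenius and the spectral sequence is the one of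
Mokrane. In `H^3` the maps `N² : E_2^(-2) → E_2^2` and `N³ : E_2^(-3) → E_2^3` concern the cohomology
of the strata in degrees `≤ 1` (curves and abelian varieties); the map
`N : E_2^(-1, 4) → E_2^(1, 2)` concerns `H²` of the double intersections.
-/

set_option autoImplicit false

namespace Pool.Agent.Results.MP_d037d4_ag.DegreeThree

open Polynomial Pool.Agent.W522.M

/-- **`N : E_2^(-1, 4) → E_2^(1, 2)` in `H^3`, in all dimensions `n ≥ 3`.** Suppose that the
conjecture of Tate holds for divisors on the components, and that the Frobenius polynomials `P₁` of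
`H²(Y^(1))` and `P₂` of `H²(Y^(2))` (in `ℤ[T]`) are such that every common root `≠ q` is a simple
root of `P₂`. Then `N : E_2^(-1, 4) → E_2^(1, 2)` is bijective. The intersections of three and more
components are arbitrary. -/
theorem result {E : Type} [Field E] [CharZero E] {n q : ℕ} (hn : 3 ≤ n) (hq : q ≠ 0)
    (D : Strata E) (hD : D.IsSemistable n q) (A : D.Cycles) (hA : A.IsGeometric n)
    (hT : A.TateDivisors q 0) (P₁ P₂ : ℤ[X])
    (h₁ : (D.frob 0 2).charpoly = P₁.map (Int.castRingHom E))
    (h₂ : (D.frob 1 3).charpoly = P₂.map (Int.castRingHom E))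
    (hs : SimpleCommonRoots P₁ P₂ q) : D.MonodromyWeight 3 1 :=
  degree_three hn hq hD A hA hT P₁ P₂ h₁ h₂ hs

end Pool.Agent.Results.MP_d037d4_ag.DegreeThree
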